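import Pool.Agent.H76.SW.CT

/-!
Evaluation of definitions (module CPE of helper76's board).
-/

set_option autoImplicit false

namespace Pool.Agent.H6.SW

open Pool.Agent.H76.SW

lemma foldl_snd (n : ℕ) (L : List UqC) (E : GrC) (a : ℕ) :
    (L.foldl (fun x Q => (addRel n x.1 x.2 Q, x.2 + 1)) (E, a)).2 = a + L.length := by
  induction L generalizing E a with
  | nil => simp
  | cons Q L ih =>
    rw [List.foldl_cons, ih, List.length_cons]
    ring

lemma progE_snoc (n a : ℕ) (E : GrC) (L : List UqC) (Q : UqC) :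
    progE n a E (L ++ [Q]) = addRel n (progE n a E L) (a + L.length) Q := by
  unfold progE
  rw [List.foldl_append, List.foldl_cons, List.foldl_nil, foldl_snd]

lemma mem_addRel (n : ℕ) (E : GrC) (l : ℕ) (Q : UqC) (u v : ℕ)
    (h : ((u, l), v) ∉ E) :
    ((u, l), v) ∈ addRel n E l Q ↔ u < n ∧ v < n ∧ UqSat n E Q [u, v] := by
  unfold addRel
  rw [List.mem_append]
  constructor
  · rintro (h1 | h1)
    · exact absurd h1 h
    · rw [List.mem_flatMap] at h1
      obtain ⟨u', hu', h2⟩ := h1
      rw [List.mem_flatMap] at h2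
      obtain ⟨v', hv', h3⟩ := h2
      by_cases h4 : UqSat n E Q [u', v']
      · rw [if_pos h4, List.mem_singleton] at h3
        obtain ⟨h5, h6⟩ := Prod.mk.inj h3
        obtain ⟨h7, -⟩ := Prod.mk.inj h5
        subst h6
        subst h7
        exact ⟨List.mem_range.1 hu', List.mem_range.1 hv', h4⟩
      · rw [if_neg h4] at h3
        simp at h3
  · rintro ⟨h1, h2, h3⟩
    right
    rw [List.mem_flatMap]
    refine ⟨u, List.mem_range.2 h1, ?_⟩
    rw [List.mem_flatMap]
    refine ⟨v, List.mem_range.2 h2, ?_⟩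
    rw [if_pos h3]
    exact List.mem_singleton.2 rfl

theorem pf_CPE (h1 : V_SC) (h2 : V_PA) (h3 : V_PB) : V_PE := by
  intro n a E hE defs hwf i hi u v
  have hget : defs.getD i [] = defs[i] := by
    rw [List.getD_eq_getElem?_getD, List.getElem?_eq_getElem hi]
    rfl
  have hlen1 : (defs.take (i + 1)).length = i + 1 := by
    rw [List.length_take]; omega
  have hlen0 : (defs.take i).length = i := by
    rw [List.length_take]; omega
  have e1 : ((u, a + i), v) ∈ progE n a E defs ↔
      ((u, a + i), v) ∈ progE n a E (defs.take (i + 1)) := by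
    have h := h2 n a E (defs.take (i + 1)) (defs.drop (i + 1)) ((u, a + i), v)
      (by rw [hlen1]; simp)
    rwa [List.take_append_drop] at h
  have e2 : defs.take (i + 1) = defs.take i ++ [defs.getD i []] := by
    rw [hget]
    exact (List.take_concat_get' defs i hi).symm
  have e3 : ∀ e : (ℕ × ℕ) × ℕ, e.1.2 < a + i →
      (e ∈ progE n a E (defs.take i) ↔ e ∈ progE n a E defs) := by
    intro e he
    have h := h2 n a E (defs.take i) (defs.drop i) e (by rw [hlen0]; exact he)
    rw [List.take_append_drop] at h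
    exact h.symm
  have e4 : ((u, a + i), v) ∉ progE n a E (defs.take i) := by
    intro h
    have h4 := (h3 n a E hE (defs.take i) _ h).2.2
    rw [hlen0] at h4
    exact absurd h4 (lt_irrefl _)
  rw [e1, e2, progE_snoc, hlen0, mem_addRel _ _ _ _ _ _ e4]
  have e5 := h1 n (a + i) (progE n a E (defs.take i)) (progE n a E defs) e3 (defs.getD i [])
    (hwf i hi) [u, v]
  rw [e5]

end Pool.Agent.H6.SW
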